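import Pool.Agent.Lib.MP_af815a_al.SideProper

set_option autoImplicit false

/-!
# Proper forcing of large admissible sets

For every uncountable subset `A` of a group `G` there is a proper poset `P` of size at most
`2 ^ |G|` which forces that `A` contains an uncountable admissible set, that is, an uncountable set
`H` such that `x⁻¹ y = y⁻¹ z` implies `x = z` for all `x, y, z` in `H`.  Proper posets preserve
`ℵ₁`, so in case of `|G| = ℵ₁` the set `H` has the size of `G` in the extension.

A statement about the extension by `P` is given by its truth value, the predicate on `P` which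
says which conditions force it; `fNot`, `fImp`, `fAll`, `fEx` are the clauses of the forcing
relation, `fFact` is a fact about the ground model, `SetName` and `FunName` are the names of
subsets of ground model sets and of functions between ground model sets.

In particular the Proper Forcing Axiom implies that every uncountable subset of a group contains an
admissible set of size `ℵ₁`; this is the theorem `exists_of_PFA`.
-/

namespace Pool.Agent.Results.MP_af815a_al.ProperForcing

open Cardinal Pool.Agent.MP_af815a_al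

universe u

section Statements

variable {P : Type u} [Preorder P] {G : Type u} [Group G]

/-- `p ⊩ H ⊆ A` -/
def fSubset (H : SetName P G) (A : Set G) : P → Prop :=
  fAll fun x : G => fImp (H.mem x) (fFact (x ∈ A))

/-- `p ⊩ for all x, y, z ∈ H, x⁻¹ y = y⁻¹ z implies x = z` -/
def fAdmissible (H : SetName P G) : P → Prop :=
  fAll fun x : G => fAll fun y : G => fAll fun z : G =>
    fImp (H.mem x) (fImp (H.mem y) (fImp (H.mem z)
      (fImp (fFact (x⁻¹ * y = y⁻¹ * z)) (fFact (x = z)))))

/-- `p ⊩ H is uncountable`: there is no function `e` on the natural numbers such that every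
element of `H` is a value of `e`. -/
def fUncountable (H : SetName P G) : P → Prop :=
  fNot (fEx fun e : FunName P (ULift.{u} ℕ) G =>
    fAll fun x : G => fImp (H.mem x) (fEx fun n : ULift.{u} ℕ => e.app n x))

end Statements

/-- The Proper Forcing Axiom (for posets in the universe `u`): for every nonempty proper poset `P`
and every family of at most `ℵ₁` dense subsets of `P` there is a filter on `P` which meets all sets
in the family. -/
def PFA : Prop :=
  ∀ (P : Type u) [Preorder P], Nonempty P → IsProper P →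
    ∀ 𝒟 : Set (Set P), #𝒟 ≤ ℵ₁ → (∀ D ∈ 𝒟, IsDense D) →
      ∃ F : Set P, F.Nonempty ∧ (∀ p ∈ F, ∀ q, p ≤ q → q ∈ F) ∧
        (∀ p ∈ F, ∀ q ∈ F, ∃ r ∈ F, r ≤ p ∧ r ≤ q) ∧ ∀ D ∈ 𝒟, (F ∩ D).Nonempty

section Proof

variable {G : Type u} [Group G] {c : ℕ → List G → List G} {A : Set G}

theorem exists_coding (G : Type u) [Infinite G] : ∃ c : ℕ → List G → List G,
    ∀ n m l l', c n l = c m l' → n = m ∧ l = l' := by
  have h1 : #(ULift.{u} ℕ × List G) ≤ #(List G) := by
    rw [Cardinal.mk_prod, Cardinal.lift_id, Cardinal.lift_id]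
    refine (Cardinal.mul_le_max_of_aleph0_le_left (by simp)).trans ?_
    simp
  obtain ⟨f⟩ := Cardinal.le_def _ _ |>.1 h1
  refine ⟨fun n l => f (ULift.up n, l), fun n m l l' h => ?_⟩
  have h2 := f.injective h
  rw [Prod.mk.injEq, ULift.up_inj] at h2
  exact h2

/-- The empty condition. -/
theorem nonempty_SCond : Nonempty (SCond c A) :=
  ⟨⟨∅, ∅, Set.finite_empty, Set.empty_subset _, by simp,
    ⟨Set.finite_empty, by simp, by simp⟩, by
      intro x hx
      exact absurd hx (Set.notMem_empty x)⟩⟩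

theorem mk_SCond_le [Infinite G] : #(SCond c A) ≤ 2 ^ #G := by
  have h1 : Function.Injective
      (fun p : SCond c A => (p.fin.toFinset, p.chain.fin.toFinset)) := by
    intro p q h
    rw [Prod.mk.injEq] at h
    refine SCond.inj ?_ ?_
    · rw [← p.fin.coe_toFinset, ← q.fin.coe_toFinset]
      exact congrArg _ h.1
    · rw [← p.chain.fin.coe_toFinset, ← q.chain.fin.coe_toFinset]
      exact congrArg _ h.2
  refine (Cardinal.mk_le_of_injective h1).trans ?_
  rw [Cardinal.mk_prod, Cardinal.lift_id, Cardinal.lift_id, Cardinal.mk_finset_of_infinite,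
    Cardinal.mk_finset_of_infinite, Cardinal.mk_set, Cardinal.mk_list_eq_mk]
  have h2 : ℵ₀ ≤ (2 : Cardinal.{u}) ^ #G :=
    (Cardinal.aleph0_le_mk G).trans (Cardinal.cantor #G).le
  exact (mul_le_mul' (Cardinal.cantor #G).le le_rfl).trans (Cardinal.mul_eq_self h2).le

/-- The Proper Forcing Axiom implies that every uncountable subset of a group contains an
admissible set of size `ℵ₁`. -/
theorem exists_of_PFA (h : PFA.{u}) (hA : ¬ A.Countable) :
    ∃ H : Set G, H ⊆ A ∧ #H = ℵ₁ ∧
      ∀ x ∈ H, ∀ y ∈ H, ∀ z ∈ H, x⁻¹ * y = y⁻¹ * z → x = z := by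
  classical
  have hunc : ∀ B : Set G, ¬ B.Countable → ℵ₁ ≤ #B := by
    intro B hB
    rw [← Cardinal.succ_aleph0, Order.succ_le_iff]
    rw [← Cardinal.le_aleph0_iff_set_countable] at hB
    exact not_le.1 hB
  obtain ⟨B, hBA, hB⟩ := Cardinal.le_mk_iff_exists_subset.1 (hunc A hA)
  have hBc : ¬ B.Countable := by
    rw [← Cardinal.le_aleph0_iff_set_countable, hB]
    exact not_le.2 Cardinal.aleph0_lt_aleph_one
  have hinf : Infinite G := by
    by_contra h
    rw [not_infinite_iff_finite] at h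
    exact hBc (Set.toFinite B).countable
  obtain ⟨c, hc⟩ := exists_coding G
  -- a well-order of `B` with countable initial segments
  obtain ⟨e⟩ : Nonempty (B ≃ (ℵ₁ : Cardinal.{u}).ord.ToType) := by
    rw [← Cardinal.eq, hB, Cardinal.mk_ord_toType]
  have hI : ∀ i : B, {j : B | e j < e i}.Countable := by
    intro i
    have h1 : (Set.Iio (e i)).Countable := by
      rw [← Cardinal.le_aleph0_iff_set_countable, ← Order.lt_succ_iff, Cardinal.succ_aleph0]
      exact Cardinal.mk_Iio_toType_ord_lt (e i)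
    exact h1.preimage e.injective
  let D : B → Set (SCond c B) := fun i =>
    {p | ∃ x ∈ p.F, x ∉ Subtype.val '' {j : B | e j < e i}}
  obtain ⟨F, -, -, hdir, hF⟩ := h (SCond c B) nonempty_SCond (isProper_SCond hc)
    (Set.range D) (by
      rw [← hB]
      exact Cardinal.mk_range_le) (by
      rintro _ ⟨i, rfl⟩ p
      exact exists_new hc hBc p ((hI i).image _))
  have hsub : (⋃ p ∈ F, p.F) ⊆ B := by
    intro x hx
    obtain ⟨p, _, hx⟩ := Set.mem_iUnion₂.1 hx
    exact p.sub hx
  refine ⟨⋃ p ∈ F, p.F, hsub.trans hBA, le_antisymm ?_ (hunc _ ?_), ?_⟩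
  · rw [← hB]
    exact Cardinal.mk_le_mk_of_subset hsub
  · intro hctb
    apply hBc
    have h1 : B ⊆ ⋃ x ∈ {j : B | (j : G) ∈ ⋃ p ∈ F, p.F},
        Subtype.val '' ({j : B | e j < e x} ∪ {x}) := by
      intro b hb
      obtain ⟨p, hpF, x, hx, hxb⟩ := hF (D ⟨b, hb⟩) ⟨_, rfl⟩
      have hxB : x ∈ B := p.sub hx
      refine Set.mem_iUnion₂.2 ⟨⟨x, hxB⟩, Set.mem_biUnion hpF hx, ⟨b, hb⟩, ?_, rfl⟩
      rcases lt_trichotomy (e ⟨b, hb⟩) (e ⟨x, hxB⟩) with h2 | h2 | h2
      · exact Or.inl h2
      · exact Or.inr (e.injective h2)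
      · exact absurd ⟨⟨x, hxB⟩, h2, rfl⟩ hxb
    refine (Set.Countable.biUnion ?_ fun x _ => ?_).mono h1
    · exact hctb.preimage Subtype.val_injective
    · exact ((hI x).union (Set.countable_singleton x)).image _
  · intro x hx y hy z hz he
    obtain ⟨p, hp, hx⟩ := Set.mem_iUnion₂.1 hx
    obtain ⟨q, hq, hy⟩ := Set.mem_iUnion₂.1 hy
    obtain ⟨r, hr, hz⟩ := Set.mem_iUnion₂.1 hz
    obtain ⟨s, hs, hsp, hsq⟩ := hdir p hp q hq
    obtain ⟨t, ht, hts, htr⟩ := hdir s hs r hr
    refine t.adm x (hts.1 (hsp.1 hx)) y (hts.1 (hsq.1 hy)) z (htr.1 hz) ?_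
    rw [mul_assoc, he, mul_inv_cancel_left]

end Proof

/-- For every uncountable subset `A` of a group `G` there are a nonempty proper poset `P` of size
at most `2 ^ |G|` and a name `H` of a subset of `G` such that every condition forces: `H` is an
uncountable admissible subset of `A`. -/
theorem result {G : Type u} [Group G] (A : Set G) (hA : ¬ A.Countable) :
    ∃ (P : Type u) (_ : Preorder P) (H : SetName P G),
      Nonempty P ∧ #P ≤ 2 ^ #G ∧ IsProper P ∧
        ∀ p : P, fSubset H A p ∧ fAdmissible H p ∧ fUncountable H p := by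
  classical
  have hGinf : Infinite G := by
    by_contra h
    rw [not_infinite_iff_finite] at h
    exact hA (Set.toFinite A).countable
  obtain ⟨c, hc⟩ := exists_coding G
  -- `x ∈ H` is forced if the conditions with `x ∈ F` are dense below
  let H : SetName (SCond c A) G :=
    { mem := fun x p => ∀ q ≤ p, ∃ r ≤ q, x ∈ r.F
      reg := fun x => ⟨fun p q hqp h r hr => h r (hr.trans hqp), fun p h q hq => by
        obtain ⟨r, hr, h1⟩ := h q hq
        obtain ⟨s, hs, h2⟩ := h1 r le_rfl
        exact ⟨s, hs.trans hr, h2⟩⟩ }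
  have hmem : ∀ x p, H.mem x p → ∃ r ≤ p, x ∈ r.F := fun x p h => h p le_rfl
  have hpers : ∀ x p q, q ≤ p → H.mem x p → H.mem x q := fun x => (H.reg x).1
  have hproper := isProper_SCond (A := A) hc
  refine ⟨SCond c A, inferInstance, H, nonempty_SCond, mk_SCond_le, hproper,
    fun p => ⟨?_, ?_, ?_⟩⟩
  · intro x q hq hx
    obtain ⟨r, _, hxr⟩ := hmem x q hx
    exact r.sub hxr
  · intro x y z q₁ _ hx q₂ hq₂ hy q₃ hq₃ hz q₄ hq₄ he
    obtain ⟨r₁, hr₁, h1⟩ := hmem x q₄ (hpers x _ _ (hq₄.trans (hq₃.trans hq₂)) hx)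
    obtain ⟨r₂, hr₂, h2⟩ := hmem y r₁ (hpers y _ _ (hr₁.trans (hq₄.trans hq₃)) hy)
    obtain ⟨r₃, hr₃, h3⟩ := hmem z r₂ (hpers z _ _ (hr₂.trans (hr₁.trans hq₄)) hz)
    refine r₃.adm x (hr₃.1 (hr₂.1 h1)) y (hr₃.1 h2) z h3 ?_
    have he' : x⁻¹ * y = y⁻¹ * z := he
    rw [mul_assoc, he', mul_inv_cancel_left]
  · intro q hq hcon
    obtain ⟨q₁, hq₁, e, he⟩ := hcon q le_rfl
    obtain ⟨q₂, hq₂, S, hS, hcov⟩ := hproper.cover e q₁
    obtain ⟨r, hr, x, hx, hxS⟩ := exists_new hc hA q₂ hS
    obtain ⟨r', hr', n, hn⟩ := he x r (hr.trans hq₂) (fun s hs => ⟨s, le_rfl, hs.1 hx⟩) r le_rfl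
    exact hxS (hcov r' (hr'.trans hr) n x hn)

end Pool.Agent.Results.MP_af815a_al.ProperForcing
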